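import Pool.Agent.H852R2.DM.Defs

namespace DM852
open RC14 RC852 Finset Filter Equiv

namespace RUNL

variable {n : ℕ}

/-! ### counting permutations with prescribed values -/

theorem cnt {ι : Type*} [Fintype ι] (w v : ι → Fin n) (hw : Function.Injective w)
    [DecidablePred fun σ : Perm (Fin n) => ∀ i, σ (w i) = v i] :
    #{σ : Perm (Fin n) | ∀ i, σ (w i) = v i} ≤ (n - Fintype.card ι).factorial := by
  classical
  rcases (univ.filter fun σ : Perm (Fin n) => ∀ i, σ (w i) = v i).eq_empty_or_nonempty with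
    h | ⟨σ0, h0⟩
  · rw [h]; simp
  · rw [mem_filter] at h0
    have h1 : #{σ : Perm (Fin n) | ∀ i, σ (w i) = v i} ≤
        Fintype.card {f : Perm (Fin n) // ∀ a, ¬ (a ∉ Set.range w) → f a = a} := by
      rw [Fintype.card_subtype]
      refine Finset.card_le_card_of_injOn (fun σ => σ0⁻¹ * σ) ?_ ?_
      · intro σ hσ
        rw [Finset.mem_coe, mem_filter] at hσ
        rw [Finset.mem_coe, mem_filter]
        refine ⟨mem_univ _, fun a ha => ?_⟩
        rw [not_not] at ha
        obtain ⟨i, rfl⟩ := ha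
        rw [Perm.mul_apply, hσ.2 i, ← h0.2 i]
        simp
      · intro σ _ τ _ h
        exact mul_left_cancel h
    refine h1.trans (le_of_eq ?_)
    rw [← Fintype.card_congr (Perm.subtypeEquivSubtypePerm fun a => a ∉ Set.range w),
      Fintype.card_perm]
    congr 1
    have h2 : Fintype.card {a : Fin n // a ∉ Set.range w} =
        Fintype.card (Fin n) - Fintype.card {a : Fin n // a ∈ Set.range w} :=
      Fintype.card_subtype_compl _
    rw [h2, Fintype.card_fin]
    congr 1
    exact Set.card_range_of_injective hw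

open Classical in
theorem cntL (L : List (Fin n × Fin n)) (hL : (L.map Prod.fst).Nodup) :
    #{σ : Perm (Fin n) | ∀ c ∈ L, σ c.1 = c.2} ≤ (n - L.length).factorial := by
  have h := cnt (fun i : Fin L.length => (L[i.1]).1) (fun i => (L[i.1]).2) (by
    intro i j hij
    have h1 : (L.map Prod.fst)[i.1]'(by simp) = (L.map Prod.fst)[j.1]'(by simp) := by
      simpa using hij
    exact Fin.ext ((hL.getElem_inj_iff).1 h1))
  rw [Fintype.card_fin] at h
  refine (Finset.card_le_card fun σ hσ => ?_).trans h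
  rw [mem_filter] at hσ ⊢
  exact ⟨mem_univ _, fun i => hσ.2 _ (List.getElem_mem i.2)⟩

/-! ### finite sets of lists -/

open Classical in
noncomputable def ls {α : Type} (S : Finset α) : ℕ → Finset (List α)
  | 0 => {[]}
  | m + 1 => (S ×ˢ ls S m).image fun q => q.1 :: q.2

open Classical in
theorem ls_card {α : Type} (S : Finset α) (m : ℕ) : #(ls S m) ≤ #S ^ m := by
  induction m with
  | zero => simp [ls]
  | succ m ih =>
    rw [ls]
    refine Finset.card_image_le.trans ?_
    rw [card_product, pow_succ, mul_comm]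
    exact Nat.mul_le_mul_right _ ih

open Classical in
theorem ls_nil {α : Type} (S : Finset α) : [] ∈ ls S 0 := by simp [ls]

open Classical in
theorem ls_cons {α : Type} {S : Finset α} {m : ℕ} {a : α} {l : List α} (ha : a ∈ S)
    (hl : l ∈ ls S m) : a :: l ∈ ls S (m + 1) := by
  rw [ls, mem_image]
  exact ⟨(a, l), mem_product.2 ⟨ha, hl⟩, rfl⟩

/-! ### the points of the walk -/

/-- the points `z_t` -/
def zs (T : Perm (Fin n)) (p : Fin n) (π : Perm (Fin n)) : ℕ → Fin n
  | 0 => T p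
  | t + 1 => T (π (zs T p π t))

/-- the list of the points `z_m, y_m, ..., z_1, y_1, z_0` -/
def pl (T : Perm (Fin n)) (p : Fin n) (π : Perm (Fin n)) : ℕ → List (Fin n)
  | 0 => [T p]
  | t + 1 => T (π (zs T p π t)) :: π (zs T p π t) :: pl T p π t

def zl (T : Perm (Fin n)) (p : Fin n) : List (Fin n) → Fin n
  | [] => T p
  | y :: _ => T y

def cl1 (T : Perm (Fin n)) (p : Fin n) : List (Fin n) → List (Fin n × Fin n)
  | [] => []
  | y :: Y => (zl T p Y, y) :: cl1 T p Y

def pll (T : Perm (Fin n)) (p : Fin n) : List (Fin n) → List (Fin n)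
  | [] => [T p]
  | y :: Y => T y :: y :: pll T p Y

def Yl (T : Perm (Fin n)) (p : Fin n) (π : Perm (Fin n)) : ℕ → List (Fin n)
  | 0 => []
  | t + 1 => π (zs T p π t) :: Yl T p π t

theorem zl_Yl (T : Perm (Fin n)) (p : Fin n) (π : Perm (Fin n)) (t : ℕ) :
    zl T p (Yl T p π t) = zs T p π t := by
  cases t <;> rfl

theorem pll_Yl (T : Perm (Fin n)) (p : Fin n) (π : Perm (Fin n)) (t : ℕ) :
    pll T p (Yl T p π t) = pl T p π t := by
  induction t with
  | zero => rfl
  | succ t ih => rw [Yl, pll, pl, ih]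

theorem cl1_Yl (T : Perm (Fin n)) (p : Fin n) (π : Perm (Fin n)) (t : ℕ) :
    ∀ c ∈ cl1 T p (Yl T p π t), π c.1 = c.2 := by
  induction t with
  | zero => intro c hc; simp [Yl, cl1] at hc
  | succ t ih =>
    intro c hc
    rw [Yl, cl1, List.mem_cons] at hc
    rcases hc with rfl | hc
    · show π (zl T p (Yl T p π t)) = _
      rw [zl_Yl]
    · exact ih c hc

theorem Yl_mem (T : Perm (Fin n)) (p : Fin n) (π : Perm (Fin n)) (t : ℕ) :
    Yl T p π t ∈ ls univ t := by
  induction t with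
  | zero => exact ls_nil _
  | succ t ih => exact ls_cons (mem_univ _) ih

theorem Yl_length (T : Perm (Fin n)) (p : Fin n) (π : Perm (Fin n)) (t : ℕ) :
    (Yl T p π t).length = t := by
  induction t with
  | zero => rfl
  | succ t ih => rw [Yl, List.length_cons, ih]

theorem sub1 (T : Perm (Fin n)) (p : Fin n) (Y : List (Fin n)) :
    List.Sublist (zl T p Y :: (cl1 T p Y).map Prod.fst) (pll T p Y) := by
  induction Y with
  | nil => exact List.Sublist.refl _
  | cons y Y ih =>
    show List.Sublist (T y :: zl T p Y :: (cl1 T p Y).map Prod.fst) (T y :: y :: pll T p Y)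
    exact List.Sublist.cons_cons _ (List.Sublist.cons _ ih)

theorem cl1_length (T : Perm (Fin n)) (p : Fin n) (Y : List (Fin n)) :
    (cl1 T p Y).length = Y.length := by
  induction Y with
  | nil => rfl
  | cons y Y ih => rw [cl1, List.length_cons, List.length_cons, ih]

theorem pll_length (T : Perm (Fin n)) (p : Fin n) (Y : List (Fin n)) :
    (pll T p Y).length = 2 * Y.length + 1 := by
  induction Y with
  | nil => rfl
  | cons y Y ih => rw [pll, List.length_cons, List.length_cons, List.length_cons, ih]; ring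

open Classical in
/-- the values causing a conflict -/
noncomputable def Bad (T : Perm (Fin n)) (p : Fin n) (Y : List (Fin n)) : Finset (Fin n) :=
  univ.filter fun y => y ∈ pll T p Y ∨ T y ∈ pll T p Y ∨ T y = y

theorem bad_card (T : Perm (Fin n)) (p : Fin n) (Y : List (Fin n)) :
    #(Bad T p Y) ≤ 4 * Y.length + 2 + nfix T := by
  classical
  have h1 : Bad T p Y ⊆ ((pll T p Y).toFinset ∪ (pll T p Y).toFinset.image T.symm) ∪
      univ.filter (fun y => T y = y) := by
    intro y hy
    rw [Bad, mem_filter] at hy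
    rcases hy.2 with h | h | h
    · exact mem_union_left _ (mem_union_left _ (List.mem_toFinset.2 h))
    · refine mem_union_left _ (mem_union_right _ (mem_image.2 ⟨T y, List.mem_toFinset.2 h, ?_⟩))
      exact T.symm_apply_apply y
    · exact mem_union_right _ (mem_filter.2 ⟨mem_univ _, h⟩)
  have h2 : #(pll T p Y).toFinset ≤ 2 * Y.length + 1 :=
    (List.toFinset_card_le _).trans (le_of_eq (pll_length T p Y))
  have h3 : #((pll T p Y).toFinset.image T.symm) ≤ 2 * Y.length + 1 :=
    Finset.card_image_le.trans h2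
  have h4 : #(univ.filter (fun y => T y = y)) = nfix T := by
    rw [nfix]
  have h5 := Finset.card_le_card h1
  have h6 := Finset.card_union_le ((pll T p Y).toFinset ∪ (pll T p Y).toFinset.image T.symm)
    (univ.filter (fun y => T y = y))
  have h7 := Finset.card_union_le (pll T p Y).toFinset ((pll T p Y).toFinset.image T.symm)
  omega

open Classical in
/-- conflicts are rare -/
theorem conf (T : Perm (Fin n)) (p : Fin n) (m : ℕ) :
    #{π : Perm (Fin n) | (pl T p π m).Nodup ∧ ¬ (pl T p π (m + 1)).Nodup} ≤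
      n ^ m * ((4 * m + 2 + nfix T) * (n - (m + 1)).factorial) := by
  set S : Finset (List (Fin n)) :=
    (ls univ m).filter fun Y => (pll T p Y).Nodup ∧ Y.length = m with hS
  have hS1 : #S ≤ n ^ m := by
    refine (Finset.card_filter_le _ _).trans ((ls_card _ _).trans ?_)
    rw [Finset.card_univ, Fintype.card_fin]
  have hsub : (univ.filter fun π : Perm (Fin n) =>
      (pl T p π m).Nodup ∧ ¬ (pl T p π (m + 1)).Nodup) ⊆
      S.biUnion fun Y => (Bad T p Y).biUnion fun y =>
        univ.filter fun π : Perm (Fin n) => ∀ c ∈ (zl T p Y, y) :: cl1 T p Y, π c.1 = c.2 := by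
    intro π hπ
    rw [mem_filter] at hπ
    obtain ⟨-, h1, h2⟩ := hπ
    rw [mem_biUnion]
    refine ⟨Yl T p π m, ?_, ?_⟩
    · rw [hS, mem_filter]
      exact ⟨Yl_mem T p π m, by rw [pll_Yl]; exact h1, Yl_length T p π m⟩
    · rw [mem_biUnion]
      refine ⟨π (zs T p π m), ?_, ?_⟩
      · rw [Bad, mem_filter]
        refine ⟨mem_univ _, ?_⟩
        rw [pll_Yl]
        rw [pl, List.nodup_cons, List.nodup_cons, List.mem_cons] at h2
        tauto
      · rw [mem_filter]
        refine ⟨mem_univ _, fun c hc => ?_⟩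
        rw [List.mem_cons] at hc
        rcases hc with rfl | hc
        · show π (zl T p (Yl T p π m)) = _
          rw [zl_Yl]
        · exact cl1_Yl T p π m c hc
  refine (Finset.card_le_card hsub).trans ?_
  refine (Finset.card_biUnion_le_card_mul _ _ _ fun Y hY => ?_).trans
    (Nat.mul_le_mul_right _ hS1)
  rw [hS, mem_filter] at hY
  obtain ⟨-, hY1, hY2⟩ := hY
  have hb := bad_card T p Y
  rw [hY2] at hb
  refine (Finset.card_biUnion_le_card_mul _ _ _ fun y hy => ?_).trans
    (Nat.mul_le_mul_right _ hb)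
  refine (cntL _ ?_).trans (le_of_eq ?_)
  · exact hY1.sublist (sub1 T p Y)
  · rw [List.length_cons, cl1_length, hY2]

open Classical in
theorem conf_sum (T : Perm (Fin n)) (p : Fin n) (m : ℕ) :
    #{π : Perm (Fin n) | ¬ (pl T p π m).Nodup} ≤
      ∑ j ∈ range m, n ^ j * ((4 * j + 2 + nfix T) * (n - (j + 1)).factorial) := by
  induction m with
  | zero => simp [pl]
  | succ m ih =>
    rw [Finset.sum_range_succ]
    have h := conf T p m
    have hsub : (univ.filter fun π : Perm (Fin n) => ¬ (pl T p π (m + 1)).Nodup) ⊆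
        (univ.filter fun π : Perm (Fin n) => ¬ (pl T p π m).Nodup) ∪
        (univ.filter fun π : Perm (Fin n) => (pl T p π m).Nodup ∧ ¬ (pl T p π (m + 1)).Nodup) := by
      intro π hπ
      rw [mem_filter] at hπ
      rw [mem_union, mem_filter, mem_filter]
      tauto
    exact (Finset.card_le_card hsub).trans ((Finset.card_union_le _ _).trans (add_le_add ih h))

/-! ### the conjugating permutation -/

def z2 (T : Perm (Fin n)) (p : Fin n) : List (Fin n × Fin n) → Fin n
  | [] => T p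
  | d :: _ => T d.2

def cl2 (T : Perm (Fin n)) (p : Fin n) (π0 : Perm (Fin n)) :
    List (Fin n × Fin n) → List (Fin n × Fin n)
  | [] => []
  | d :: D => (d.2, π0 d.1) :: (z2 T p D, d.1) :: cl2 T p π0 D

def Dl (T : Perm (Fin n)) (p : Fin n) (γ π : Perm (Fin n)) : ℕ → List (Fin n × Fin n)
  | 0 => []
  | t + 1 => (γ (zs T p π t), π (zs T p π t)) :: Dl T p γ π t

theorem z2_Dl (T : Perm (Fin n)) (p : Fin n) (γ π : Perm (Fin n)) (t : ℕ) :
    z2 T p (Dl T p γ π t) = zs T p π t := by
  cases t <;> rfl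

theorem pts2 (T : Perm (Fin n)) (p : Fin n) (π0 γ π : Perm (Fin n)) (t : ℕ) :
    z2 T p (Dl T p γ π t) :: (cl2 T p π0 (Dl T p γ π t)).map Prod.fst = pl T p π t := by
  induction t with
  | zero => rfl
  | succ t ih =>
    rw [pl, ← ih]
    rfl

theorem cl2_Dl (T : Perm (Fin n)) (p : Fin n) (π0 γ : Perm (Fin n)) (t : ℕ) :
    ∀ c ∈ cl2 T p π0 (Dl T p γ (γ⁻¹ * π0 * γ) t), γ c.1 = c.2 := by
  induction t with
  | zero => intro c hc; simp [Dl, cl2] at hc
  | succ t ih =>
    intro c hc
    rw [Dl, cl2, List.mem_cons, List.mem_cons] at hc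
    rcases hc with rfl | rfl | hc
    · show γ ((γ⁻¹ * π0 * γ) _) = π0 (γ _)
      simp [Perm.mul_apply]
    · show γ (z2 T p (Dl T p γ (γ⁻¹ * π0 * γ) t)) = _
      rw [z2_Dl]
    · exact ih c hc

theorem cl2_length (T : Perm (Fin n)) (p : Fin n) (π0 : Perm (Fin n))
    (D : List (Fin n × Fin n)) : (cl2 T p π0 D).length = 2 * D.length := by
  induction D with
  | nil => rfl
  | cons y Y ih => rw [cl2, List.length_cons, List.length_cons, List.length_cons, ih]; ring

theorem Dl_length (T : Perm (Fin n)) (p : Fin n) (γ π : Perm (Fin n)) (t : ℕ) :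
    (Dl T p γ π t).length = t := by
  induction t with
  | zero => rfl
  | succ t ih => rw [Dl, List.length_cons, ih]

theorem Dl_mem (T : Perm (Fin n)) (p : Fin n) (γ π : Perm (Fin n)) (B : Finset (Fin n)) (t : ℕ)
    (h : ∀ s < t, γ (zs T p π s) ∈ B) : Dl T p γ π t ∈ ls (B ×ˢ univ) t := by
  induction t with
  | zero => exact ls_nil _
  | succ t ih =>
    exact ls_cons (mem_product.2 ⟨h t (Nat.lt_succ_self t), mem_univ _⟩)
      (ih fun s hs => h s (Nat.lt_succ_of_lt hs))

open Classical in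
theorem main (T : Perm (Fin n)) (p : Fin n) (π0 : Perm (Fin n)) (B : Finset (Fin n)) (m : ℕ) :
    #{γ : Perm (Fin n) | (pl T p (γ⁻¹ * π0 * γ) m).Nodup ∧
      ∀ t ≤ m, γ (zs T p (γ⁻¹ * π0 * γ) t) ∈ B} ≤
      (#B * n) ^ m * (#B * (n - (2 * m + 1)).factorial) := by
  set S : Finset (List (Fin n × Fin n)) := (ls (B ×ˢ univ) m).filter fun D => D.length = m ∧
    (z2 T p D :: (cl2 T p π0 D).map Prod.fst).Nodup with hS
  have hS1 : #S ≤ (#B * n) ^ m := by
    refine (Finset.card_filter_le _ _).trans ((ls_card _ _).trans ?_)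
    rw [Finset.card_product, Finset.card_univ, Fintype.card_fin]
  have hsub : (univ.filter fun γ : Perm (Fin n) => (pl T p (γ⁻¹ * π0 * γ) m).Nodup ∧
      ∀ t ≤ m, γ (zs T p (γ⁻¹ * π0 * γ) t) ∈ B) ⊆
      S.biUnion fun D => B.biUnion fun u =>
        univ.filter fun γ : Perm (Fin n) => ∀ c ∈ (z2 T p D, u) :: cl2 T p π0 D, γ c.1 = c.2 := by
    intro γ hγ
    rw [mem_filter] at hγ
    obtain ⟨-, h1, h2⟩ := hγ
    rw [mem_biUnion]
    refine ⟨Dl T p γ (γ⁻¹ * π0 * γ) m, ?_, ?_⟩
    · rw [hS, mem_filter]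
      exact ⟨Dl_mem T p γ _ B m fun s hs => h2 s hs.le, Dl_length T p γ _ m, by
        rw [pts2]; exact h1⟩
    · rw [mem_biUnion]
      refine ⟨γ (zs T p (γ⁻¹ * π0 * γ) m), h2 m le_rfl, ?_⟩
      rw [mem_filter]
      refine ⟨mem_univ _, fun c hc => ?_⟩
      rw [List.mem_cons] at hc
      rcases hc with rfl | hc
      · show γ (z2 T p (Dl T p γ (γ⁻¹ * π0 * γ) m)) = _
        rw [z2_Dl]
      · exact cl2_Dl T p π0 γ m c hc
  refine (Finset.card_le_card hsub).trans ?_
  refine (Finset.card_biUnion_le_card_mul _ _ _ fun D hD => ?_).trans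
    (Nat.mul_le_mul_right _ hS1)
  rw [hS, mem_filter] at hD
  obtain ⟨-, hD1, hD2⟩ := hD
  refine Finset.card_biUnion_le_card_mul _ _ _ fun u hu => ?_
  refine (cntL ((z2 T p D, u) :: cl2 T p π0 D) hD2).trans (le_of_eq ?_)
  rw [List.length_cons, cl2_length, hD1]

/-! ### the run -/

theorem run_zs {H : ℕ} {c T π : Perm (Fin n)} {p : Fin n} (hc : c ∈ π.cycleFactorsFinset)
    (h : Run H c T p) : ∀ t < H, zs T p π t = T (((c * T) ^ t) p) ∧ zs T p π t ∈ c.support := by
  have hc' := Perm.mem_cycleFactorsFinset_iff.1 hc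
  have key : ∀ t < H, T (((c * T) ^ t) p) ∈ c.support := by
    intro t ht
    have h1 := h (t + 1) (by omega) (by omega)
    rw [pow_succ', Perm.mul_apply, Perm.mul_apply, Perm.apply_mem_support] at h1
    exact h1
  intro t
  induction t with
  | zero => intro ht; exact ⟨rfl, by simpa [zs] using key 0 ht⟩
  | succ t ih =>
    intro ht
    obtain ⟨h1, h2⟩ := ih (by omega)
    have h3 : zs T p π (t + 1) = T (((c * T) ^ (t + 1)) p) := by
      rw [zs, ← hc'.2 _ h2, h1, pow_succ', Perm.mul_apply, Perm.mul_apply]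
    exact ⟨h3, by rw [h3]; exact key (t + 1) ht⟩

/-- a permutation has at most one long cycle -/
theorem long_unique {a : ℝ} (ha1 : a ≤ 1 / 4) (hn : 0 < n) {π c c' : Perm (Fin n)}
    (hc : c ∈ π.cycleFactorsFinset) (hc' : c' ∈ π.cycleFactorsFinset)
    (h : InW a n c.support.card) (h' : InW a n c'.support.card) : c = c' := by
  by_contra hne
  have h1 : Perm.Disjoint c c' := Perm.cycleFactorsFinset_pairwise_disjoint π hc hc' hne
  have h2 := Finset.card_union_of_disjoint h1.disjoint_support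
  have h3 : #(c.support ∪ c'.support) ≤ n := by
    refine (Finset.card_le_univ _).trans ?_
    rw [Fintype.card_fin]
  have h4 : ((#c.support : ℕ) : ℝ) + (#c'.support : ℕ) ≤ n := by
    rw [h2] at h3
    exact_mod_cast h3
  have hn' : (0 : ℝ) < n := by exact_mod_cast hn
  have h5 := h.1
  have h6 := h'.1
  nlinarith

/-- the event without conflicts -/
def Ph (a : ℝ) (m : ℕ) (T : Perm (Fin n)) (p : Fin n) (π : Perm (Fin n)) : Prop :=
  (pl T p π m).Nodup ∧ ∃ c ∈ π.cycleFactorsFinset, InW a n c.support.card ∧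
    ∀ t ≤ m, zs T p π t ∈ c.support

open Classical in
theorem one (a : ℝ) (ha : 0 < a) (ha1 : a ≤ 1 / 4) (hn : 0 < n) (m : ℕ) (T : Perm (Fin n))
    (p : Fin n) (π0 : Perm (Fin n)) :
    (#{γ : Perm (Fin n) | Ph a m T p (γ⁻¹ * π0 * γ)} : ℝ) ≤
      ((1 - a / 2) * n) ^ (m + 1) * n ^ m * (n - (2 * m + 1)).factorial := by
  by_cases hex : ∃ c ∈ π0.cycleFactorsFinset, InW a n c.support.card
  · obtain ⟨c0, hc0, hc0'⟩ := hex
    have h1 := main T p π0 c0.support m
    have h2 : #{γ : Perm (Fin n) | Ph a m T p (γ⁻¹ * π0 * γ)} ≤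
        #{γ : Perm (Fin n) | (pl T p (γ⁻¹ * π0 * γ) m).Nodup ∧
      ∀ t ≤ m, γ (zs T p (γ⁻¹ * π0 * γ) t) ∈ c0.support} := by
      refine Finset.card_le_card fun γ hγ => ?_
      rw [mem_filter] at hγ ⊢
      obtain ⟨-, h3, c, hc, hcW, hct⟩ := hγ
      refine ⟨mem_univ _, h3, fun t ht => ?_⟩
      have h4 : γ * c * γ⁻¹ ∈ π0.cycleFactorsFinset := by
        have h5 := (Perm.mem_cycleFactorsFinset_conj (γ⁻¹ * π0 * γ) γ c).2 hc
        have h6 : γ * (γ⁻¹ * π0 * γ) * γ⁻¹ = π0 := by group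
        rwa [h6] at h5
      have h7 : γ * c * γ⁻¹ = c0 := by
        refine long_unique ha1 hn h4 hc0 ?_ hc0'
        rwa [Perm.card_support_conj]
      rw [← h7]
      have h8 := hct t ht
      rw [Perm.mem_support] at h8 ⊢
      intro h9
      apply h8
      apply γ.injective
      simpa [Perm.mul_apply] using h9
    have h3 : (#{γ : Perm (Fin n) | Ph a m T p (γ⁻¹ * π0 * γ)} : ℝ) ≤
        ((#c0.support * n) ^ m * (#c0.support * (n - (2 * m + 1)).factorial) : ℕ) := by
      exact_mod_cast h2.trans h1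
    refine h3.trans ?_
    push_cast
    have h4 : ((#c0.support : ℕ) : ℝ) ^ (m + 1) ≤ ((1 - a / 2) * n) ^ (m + 1) :=
      pow_le_pow_left₀ (by positivity) hc0'.2 _
    calc ((#c0.support : ℝ) * n) ^ m * (#c0.support * ((n - (2 * m + 1)).factorial : ℝ))
        = (#c0.support : ℝ) ^ (m + 1) * (n ^ m * ((n - (2 * m + 1)).factorial : ℝ)) := by ring
      _ ≤ ((1 - a / 2) * n) ^ (m + 1) * (n ^ m * ((n - (2 * m + 1)).factorial : ℝ)) :=
          mul_le_mul_of_nonneg_right h4 (by positivity)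
      _ = _ := by ring
  · have h1 : (univ.filter fun γ : Perm (Fin n) => Ph a m T p (γ⁻¹ * π0 * γ)) = ∅ := by
      refine Finset.filter_eq_empty_iff.2 fun γ _ hγ => hex ?_
      obtain ⟨h3, c, hc, hcW, hct⟩ := hγ
      refine ⟨γ * c * γ⁻¹, ?_, ?_⟩
      · have h5 := (Perm.mem_cycleFactorsFinset_conj (γ⁻¹ * π0 * γ) γ c).2 hc
        have h6 : γ * (γ⁻¹ * π0 * γ) * γ⁻¹ = π0 := by group
        rwa [h6] at h5
      · rwa [Perm.card_support_conj]
    rw [h1]
    have h2 : 0 ≤ 1 - a / 2 := by linarith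
    simp only [Finset.card_empty, Nat.cast_zero]
    positivity

open Classical in
/-- averaging over conjugates -/
theorem swap_sum (Φ : Perm (Fin n) → Prop) :
    #{π : Perm (Fin n) | π ∈ alternatingGroup (Fin n) ∧ Φ π} * n.factorial =
      ∑ π0 ∈ univ.filter (fun π : Perm (Fin n) => π ∈ alternatingGroup (Fin n)),
        #{γ : Perm (Fin n) | Φ (γ⁻¹ * π0 * γ)} := by
  have h1 : ∀ γ : Perm (Fin n), #{π : Perm (Fin n) | π ∈ alternatingGroup (Fin n) ∧ Φ π} =
      #{π : Perm (Fin n) | π ∈ alternatingGroup (Fin n) ∧ Φ (γ⁻¹ * π * γ)} := by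
    intro γ
    refine Finset.card_bij (fun π _ => γ * π * γ⁻¹) ?_ ?_ ?_
    · intro π hπ
      rw [mem_filter] at hπ ⊢
      refine ⟨mem_univ _, ?_, ?_⟩
      · rw [Perm.mem_alternatingGroup] at hπ ⊢
        rw [map_mul, map_mul, hπ.2.1, mul_one, ← map_mul, mul_inv_cancel, map_one]
      · have h6 : γ⁻¹ * (γ * π * γ⁻¹) * γ = π := by group
        rw [h6]; exact hπ.2.2
    · intro π _ π' _ h
      exact mul_left_cancel (mul_right_cancel h)
    · intro π hπ
      rw [mem_filter] at hπ
      refine ⟨γ⁻¹ * π * γ, ?_, by group⟩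
      rw [mem_filter]
      refine ⟨mem_univ _, ?_, hπ.2.2⟩
      rw [Perm.mem_alternatingGroup] at hπ ⊢
      rw [map_mul, map_mul, hπ.2.1, mul_one, ← map_mul, inv_mul_cancel, map_one]
  have h2 : #{π : Perm (Fin n) | π ∈ alternatingGroup (Fin n) ∧ Φ π} * n.factorial =
      ∑ γ : Perm (Fin n), #{π : Perm (Fin n) | π ∈ alternatingGroup (Fin n) ∧ Φ π} := by
    rw [Finset.sum_const, Finset.card_univ, Fintype.card_perm, Fintype.card_fin, smul_eq_mul,
      mul_comm]
  rw [h2, Finset.sum_congr rfl fun γ _ => h1 γ]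
  simp only [Finset.card_filter]
  rw [Finset.sum_comm, Finset.sum_filter]
  refine Finset.sum_congr rfl fun π _ => ?_
  by_cases h : π ∈ alternatingGroup (Fin n)
  · simp [h]
  · simp [h]

/-- `n ^ k (n-k)! ≤ n! (1 + 2 k² / n)` -/
theorem fact_bound (k n : ℕ) (hk : 2 * k ^ 2 ≤ n) (hn : 0 < n) :
    (n : ℝ) ^ k * (n - k).factorial ≤ n.factorial * (1 + 2 * k ^ 2 / n) := by
  have hn' : (0 : ℝ) < n := by exact_mod_cast hn
  have hkn : k ≤ n := by nlinarith [Nat.zero_le k, sq_nonneg (k : ℤ), Nat.le_self_pow two_ne_zero k]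
  have h1 : ((n.factorial : ℕ) : ℝ) = (n - k).factorial * n.descFactorial k := by
    exact_mod_cast (Nat.factorial_mul_descFactorial hkn).symm
  have h2 : ((n : ℝ) - k) ^ k ≤ n.descFactorial k := by
    have h3 : (n - k) ^ k ≤ n.descFactorial k :=
      (Nat.pow_le_pow_left (by omega) k).trans (Nat.pow_sub_le_descFactorial n k)
    have h4 : (((n - k : ℕ) : ℝ)) ^ k ≤ n.descFactorial k := by exact_mod_cast h3
    rwa [Nat.cast_sub hkn] at h4
  have h3 : (n : ℝ) ^ k * (1 - k ^ 2 / n) ≤ ((n : ℝ) - k) ^ k := by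
    have h4 : (-2 : ℝ) ≤ -(k / n) := by
      have : (k : ℝ) / n ≤ 1 := by
        rw [div_le_one hn']
        exact_mod_cast hkn
      linarith
    have h5 := one_add_mul_le_pow h4 k
    have h6 : (n : ℝ) - k = n * (1 + -(k / n)) := by field_simp; ring
    rw [h6, mul_pow]
    refine mul_le_mul_of_nonneg_left ?_ (by positivity)
    refine le_trans (le_of_eq ?_) h5
    ring
  have hx : (k : ℝ) ^ 2 / n ≤ 1 / 2 := by
    rw [div_le_iff₀ hn']
    have : (2 : ℝ) * k ^ 2 ≤ n := by exact_mod_cast hk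
    linarith
  have hx0 : 0 ≤ (k : ℝ) ^ 2 / n := by positivity
  have h7 : (1 : ℝ) ≤ (1 - k ^ 2 / n) * (1 + 2 * k ^ 2 / n) := by
    have : (2 : ℝ) * k ^ 2 / n = 2 * (k ^ 2 / n) := by ring
    rw [this]
    nlinarith
  have h8 : (n : ℝ) ^ k ≤ n.descFactorial k * (1 + 2 * k ^ 2 / n) := by
    calc (n : ℝ) ^ k ≤ (n : ℝ) ^ k * ((1 - k ^ 2 / n) * (1 + 2 * k ^ 2 / n)) :=
          le_mul_of_one_le_right (by positivity) h7
      _ = ((n : ℝ) ^ k * (1 - k ^ 2 / n)) * (1 + 2 * k ^ 2 / n) := by ring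
      _ ≤ n.descFactorial k * (1 + 2 * k ^ 2 / n) :=
          mul_le_mul_of_nonneg_right (h3.trans h2) (by positivity)
  rw [h1]
  calc (n : ℝ) ^ k * (n - k).factorial
      ≤ (n.descFactorial k * (1 + 2 * k ^ 2 / n)) * (n - k).factorial :=
        mul_le_mul_of_nonneg_right h8 (by positivity)
    _ = _ := by ring

open Classical in
theorem card_eq (Φ : Perm (Fin n) → Prop) :
    Nat.card {π : Alt n // Φ (π : Perm (Fin n))} =
      #{π : Perm (Fin n) | π ∈ alternatingGroup (Fin n) ∧ Φ π} := by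
  rw [Nat.card_congr (Equiv.subtypeSubtypeEquivSubtypeInter
    (fun π : Perm (Fin n) => π ∈ alternatingGroup (Fin n)) Φ), Nat.card_eq_fintype_card,
    Fintype.card_subtype]

open Classical in
theorem card_alt : #{π : Perm (Fin n) | π ∈ alternatingGroup (Fin n)} =
    Fintype.card (Alt n) := by
  rw [← Nat.card_eq_fintype_card]
  have h : Nat.card (Alt n) = Nat.card {π : Perm (Fin n) // π ∈ alternatingGroup (Fin n)} := rfl
  rw [h, Nat.card_eq_fintype_card, Fintype.card_subtype]

open Classical in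
theorem final (a : ℝ) (ha : 0 < a) (ha1 : a ≤ 1 / 4) (m : ℕ) (hn : 2 ≤ n)
    (hm : 2 * (2 * m + 1) ^ 2 ≤ n) (T : Perm (Fin n)) (p : Fin n) :
    (Nat.card {π : Alt n // ∃ c ∈ (π : Perm (Fin n)).cycleFactorsFinset,
          InW a n c.support.card ∧ Run (m + 1) c T p} : ℝ) ≤
        ((1 - a / 2) ^ (m + 1) + (2 * (2 * m + 1) ^ 2 + 4 * m * (4 * m + 2)) * (1 + nfix T) / n) *
          Fintype.card (Alt n) := by
  have hn0 : 0 < n := by omega
  have hn' : (0 : ℝ) < n := by exact_mod_cast hn0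
  set A : ℝ := (Fintype.card (Alt n) : ℝ) with hA
  have hA0 : 0 ≤ A := by rw [hA]; positivity
  have hfact : (n.factorial : ℝ) = 2 * A := by
    have : Nontrivial (Fin n) := Fin.nontrivial_iff_two_le.2 hn
    have h1 : 2 * Fintype.card (alternatingGroup (Fin n)) = Fintype.card (Perm (Fin n)) :=
      two_mul_card_alternatingGroup
    rw [Fintype.card_perm, Fintype.card_fin] at h1
    rw [hA, ← h1]
    push_cast
    rfl
  have hf0 : (0 : ℝ) < n.factorial := by exact_mod_cast n.factorial_pos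
  -- splitting
  have h1 : Nat.card {π : Alt n // ∃ c ∈ (π : Perm (Fin n)).cycleFactorsFinset,
          InW a n c.support.card ∧ Run (m + 1) c T p} ≤
      #{π : Perm (Fin n) | ¬ (pl T p π m).Nodup} +
        #{π : Perm (Fin n) | π ∈ alternatingGroup (Fin n) ∧ Ph a m T p π} := by
    obtain ⟨Φ, hΦ⟩ : ∃ Φ : Perm (Fin n) → Prop, Φ = fun π =>
      ∃ c ∈ π.cycleFactorsFinset, InW a n c.support.card ∧ Run (m + 1) c T p := ⟨_, rfl⟩
    have h0 : Nat.card {π : Alt n // ∃ c ∈ (π : Perm (Fin n)).cycleFactorsFinset,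
          InW a n c.support.card ∧ Run (m + 1) c T p} =
        Nat.card {π : Alt n // Φ (π : Perm (Fin n))} := by rw [hΦ]
    rw [h0, card_eq Φ]
    refine (Finset.card_le_card fun π hπ => ?_).trans (Finset.card_union_le _ _)
    rw [mem_filter, hΦ] at hπ
    obtain ⟨-, hπ1, c, hc, hcW, hrun⟩ := hπ
    rw [mem_union, mem_filter, mem_filter]
    by_cases hnd : (pl T p π m).Nodup
    · right
      exact ⟨mem_univ _, hπ1, hnd, c, hc, hcW, fun t ht =>
        (run_zs hc hrun t (Nat.lt_succ_of_le ht)).2⟩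
    · left
      exact ⟨mem_univ _, hnd⟩
  -- conflicts
  have h2 : (#{π : Perm (Fin n) | ¬ (pl T p π m).Nodup} : ℝ) ≤
      (4 * m * (4 * m + 2)) * (1 + nfix T) / n * A := by
    have h3 : (#{π : Perm (Fin n) | ¬ (pl T p π m).Nodup} : ℝ) ≤
        ∑ j ∈ range m, (n : ℝ) ^ j * ((4 * j + 2 + nfix T) * (n - (j + 1)).factorial) := by
      exact_mod_cast conf_sum T p m
    refine h3.trans ?_
    have h4 : ∀ j ∈ range m, (n : ℝ) ^ j * ((4 * j + 2 + nfix T) * (n - (j + 1)).factorial) ≤
        (4 * m + 2) * (1 + nfix T) * 2 / n * n.factorial := by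
      intro j hj
      rw [mem_range] at hj
      have h5 : 2 * (j + 1) ^ 2 ≤ n := by
        refine le_trans ?_ hm
        have : (j + 1) ^ 2 ≤ (2 * m + 1) ^ 2 := Nat.pow_le_pow_left (by omega) 2
        omega
      have h6 := fact_bound (j + 1) n h5 hn0
      have h7 : 2 * ((j + 1 : ℕ) : ℝ) ^ 2 / n ≤ 1 := by
        rw [div_le_one hn']
        exact_mod_cast h5
      have h8 : (n : ℝ) ^ (j + 1) * (n - (j + 1)).factorial ≤ 2 * n.factorial := by
        nlinarith
      have h9 : (4 * (j : ℝ) + 2 + nfix T) ≤ (4 * m + 2) * (1 + nfix T) := by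
        have hjm : (j : ℝ) ≤ m := by exact_mod_cast hj.le
        have hx : (0 : ℝ) ≤ nfix T := Nat.cast_nonneg _
        have hm0 : (0 : ℝ) ≤ m := Nat.cast_nonneg _
        nlinarith [mul_nonneg hm0 hx]
      calc (n : ℝ) ^ j * ((4 * j + 2 + nfix T) * (n - (j + 1)).factorial)
          = (4 * j + 2 + nfix T) / n * ((n : ℝ) ^ (j + 1) * (n - (j + 1)).factorial) := by
            rw [pow_succ]
            field_simp
        _ ≤ ((4 * m + 2) * (1 + nfix T)) / n * (2 * n.factorial) := by
            refine mul_le_mul ?_ h8 (by positivity) (by positivity)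
            exact div_le_div_of_nonneg_right h9 hn'.le
        _ = _ := by ring
    refine (Finset.sum_le_sum h4).trans (le_of_eq ?_)
    rw [Finset.sum_const, card_range, nsmul_eq_mul, hfact]
    ring
  -- the main term
  have h5 : (#{π : Perm (Fin n) | π ∈ alternatingGroup (Fin n) ∧ Ph a m T p π} : ℝ) ≤
      ((1 - a / 2) ^ (m + 1) + 2 * (2 * m + 1) ^ 2 / n) * A := by
    have h6 := swap_sum (n := n) (Ph a m T p)
    have h7 : (#{π : Perm (Fin n) | π ∈ alternatingGroup (Fin n) ∧ Ph a m T p π} : ℝ) *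
        n.factorial ≤ A * (((1 - a / 2) * n) ^ (m + 1) * n ^ m * (n - (2 * m + 1)).factorial) := by
      have h8 : (#{π : Perm (Fin n) | π ∈ alternatingGroup (Fin n) ∧ Ph a m T p π} : ℝ) *
        n.factorial = ∑ π0 ∈ univ.filter (fun π : Perm (Fin n) => π ∈ alternatingGroup (Fin n)),
        (#{γ : Perm (Fin n) | Ph a m T p (γ⁻¹ * π0 * γ)} : ℝ) := by
        exact_mod_cast h6
      rw [h8]
      refine (Finset.sum_le_sum fun π0 _ => one a ha ha1 hn0 m T p π0).trans (le_of_eq ?_)
      rw [Finset.sum_const, nsmul_eq_mul, card_alt]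
    have h9 := fact_bound (2 * m + 1) n hm hn0
    have h10 : 0 ≤ 1 - a / 2 := by linarith
    have h11 : (1 - a / 2) ^ (m + 1) ≤ 1 := pow_le_one₀ h10 (by linarith)
    have h12 : (0 : ℝ) ≤ 2 * (2 * m + 1) ^ 2 / n := by positivity
    have h13 : (#{π : Perm (Fin n) | π ∈ alternatingGroup (Fin n) ∧ Ph a m T p π} : ℝ) *
        n.factorial ≤ (((1 - a / 2) ^ (m + 1) + 2 * (2 * m + 1) ^ 2 / n) * A) * n.factorial := by
      refine h7.trans ?_
      calc A * (((1 - a / 2) * n) ^ (m + 1) * n ^ m * (n - (2 * m + 1)).factorial)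
          = A * (1 - a / 2) ^ (m + 1) * ((n : ℝ) ^ (2 * m + 1) * (n - (2 * m + 1)).factorial) := by
            rw [mul_pow]
            have : (n : ℝ) ^ (2 * m + 1) = n ^ (m + 1) * n ^ m := by rw [← pow_add]; congr 1; ring
            rw [this]
            ring
        _ ≤ A * (1 - a / 2) ^ (m + 1) *
            (n.factorial * (1 + 2 * ((2 * m + 1 : ℕ) : ℝ) ^ 2 / n)) :=
            mul_le_mul_of_nonneg_left h9 (by positivity)
        _ = A * n.factorial * ((1 - a / 2) ^ (m + 1) +
            (1 - a / 2) ^ (m + 1) * (2 * (2 * m + 1) ^ 2 / n)) := by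
            push_cast
            ring
        _ ≤ A * n.factorial * ((1 - a / 2) ^ (m + 1) + 1 * (2 * (2 * m + 1) ^ 2 / n)) := by
            refine mul_le_mul_of_nonneg_left ?_ (by positivity)
            have := mul_le_mul_of_nonneg_right h11 h12
            linarith
        _ = _ := by ring
    exact le_of_mul_le_mul_right h13 hf0
  have h14 : (Nat.card {π : Alt n // ∃ c ∈ (π : Perm (Fin n)).cycleFactorsFinset,
          InW a n c.support.card ∧ Run (m + 1) c T p} : ℝ) ≤
      (#{π : Perm (Fin n) | ¬ (pl T p π m).Nodup} : ℝ) +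
        (#{π : Perm (Fin n) | π ∈ alternatingGroup (Fin n) ∧ Ph a m T p π} : ℝ) := by
    exact_mod_cast h1
  refine h14.trans ((add_le_add h2 h5).trans ?_)
  have hx : (0 : ℝ) ≤ nfix T := Nat.cast_nonneg _
  have h15 : (2 * (2 * m + 1) ^ 2 / n : ℝ) ≤ 2 * (2 * m + 1) ^ 2 * (1 + nfix T) / n := by
    refine div_le_div_of_nonneg_right ?_ hn'.le
    refine le_mul_of_one_le_right (by positivity) ?_
    linarith
  calc (4 * m * (4 * m + 2)) * (1 + nfix T) / n * A +
        ((1 - a / 2) ^ (m + 1) + 2 * (2 * m + 1) ^ 2 / n) * A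
      ≤ (4 * m * (4 * m + 2)) * (1 + nfix T) / n * A +
        ((1 - a / 2) ^ (m + 1) + 2 * (2 * m + 1) ^ 2 * (1 + nfix T) / n) * A := by
        have := mul_le_mul_of_nonneg_right h15 hA0
        linarith
    _ = _ := by ring

end RUNL

/-- long runs inside the long cycle are unlikely -/
theorem RUNL (a : ℝ) (ha : 0 < a) (ha1 : a ≤ 1 / 4) (H : ℕ) : ∃ C : ℝ, 0 < C ∧
    ∀ᶠ n : ℕ in atTop, ∀ (T : Perm (Fin n)) (p : Fin n),
      (Nat.card {π : Alt n // ∃ c ∈ (π : Perm (Fin n)).cycleFactorsFinset,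
          InW a n c.support.card ∧ Run H c T p} : ℝ) ≤
        ((1 - a / 2) ^ H + C * (1 + nfix T) / n) * Fintype.card (Alt n) := by
  classical
  rcases H with _ | m
  · refine ⟨1, one_pos, Eventually.of_forall fun n T p => ?_⟩
    have h1 : Nat.card {π : Alt n // ∃ c ∈ (π : Perm (Fin n)).cycleFactorsFinset,
          InW a n c.support.card ∧ Run 0 c T p} ≤ Fintype.card (Alt n) := by
      rw [← Nat.card_eq_fintype_card]
      exact Nat.card_le_card_of_injective _ Subtype.val_injective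
    have h2 : (Nat.card {π : Alt n // ∃ c ∈ (π : Perm (Fin n)).cycleFactorsFinset,
          InW a n c.support.card ∧ Run 0 c T p} : ℝ) ≤ Fintype.card (Alt n) := by
      exact_mod_cast h1
    refine h2.trans ?_
    refine le_mul_of_one_le_left (by positivity) ?_
    rw [pow_zero]
    have : (0 : ℝ) ≤ 1 * (1 + nfix T) / n := by positivity
    linarith
  · refine ⟨2 * (2 * m + 1) ^ 2 + 4 * m * (4 * m + 2), by positivity, ?_⟩
    filter_upwards [eventually_ge_atTop 2, eventually_ge_atTop (2 * (2 * m + 1) ^ 2)] with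
      n hn hm T p
    exact RUNL.final a ha ha1 m hn hm T p

end DM852
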